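import Pool.Agent.Q166.DismD

/-!
# MP_e02782_co, Q1: the answer is no

`s n / I n` tends to `0` (super-exponentially in a weak sense: `s n * 8 ^ n ≤ I n` for all large
`n`), where `I n` is the number of isotopism classes of Latin squares of order `n` and `s n` is the
number of classes containing a Latin square that corresponds to a solution.

Definitions (in `Pool.Agent.Q166.DismB` and `Pool.Agent.Q166.DismD`): `Cube n`, `Adj`, `Move`,
`IsSolution`, `IsLatin`, `assoc`, `LS`, `Isotopic`, `isoSetoid`, `I`, `s`.

Idea: in a dismantling that ends in the set of a Latin square every deleted cube has exactly one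
remaining neighbour in each of its three lines, the one towards the final set. Hence a directed
4-cycle in a layer can never be dismantled, which says that every layer of a solution is (the matrix
of) a Baxter permutation. There are at most `8 ^ n` Baxter permutations, so at most `8 ^ (n ^ 2)`
solutions come from Latin squares, while M. Hall's theorem gives at least `∏ k!` Latin squares.
-/

namespace Pool.Agent.Results.MP_e02782_co.Disproof

open Pool.Agent.Q166.Dism Filter

theorem result :
    (∀ n : ℕ, 327680 ≤ n → s n * 8 ^ n ≤ I n) ∧
    Tendsto (fun n : ℕ => (s n : ℝ) / (I n : ℝ)) atTop (nhds 0) ∧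
    ∀ᶠ n : ℕ in atTop, ¬ ((1 : ℝ) / 2 < (s n : ℝ) / (I n : ℝ)) := by
  have key : Tendsto (fun n : ℕ => (s n : ℝ) / (I n : ℝ)) atTop (nhds 0) := by
    have h8 : Tendsto (fun n : ℕ => ((1 : ℝ) / 8) ^ n) atTop (nhds 0) :=
      tendsto_pow_atTop_nhds_zero_of_lt_one (by norm_num) (by norm_num)
    refine squeeze_zero' (Eventually.of_forall fun n => by positivity) ?_ h8
    filter_upwards [eventually_ge_atTop 327680] with n hn
    have h : (s n : ℝ) * 8 ^ n ≤ I n := by exact_mod_cast main_bound n hn
    rcases Nat.eq_zero_or_pos (I n) with h0 | h0
    · rw [h0]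
      simp
    · have hI : (0 : ℝ) < I n := by exact_mod_cast h0
      rw [div_le_iff₀ hI, div_pow, one_pow, one_div, inv_mul_eq_div, le_div_iff₀ (by positivity)]
      exact h
  refine ⟨main_bound, key, ?_⟩
  filter_upwards [key.eventually (gt_mem_nhds (show (0 : ℝ) < 1 / 2 by norm_num))] with n hn
  exact not_lt.2 hn.le

end Pool.Agent.Results.MP_e02782_co.Disproof
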